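import Mathlib
import Pool.Agent.Run7.h127.PS.Red

/-!
# The polynomial Freiman-Ruzsa conjecture: popular values of homomorphisms can be removed

Let `Γ` be an abelian group and `A ⊆ Γ` finite, nonempty, `|A + A| ≤ K |A|`. A subgroup `G` is
called popular for `A` (`Popular m n η A G`) if at least `(m / (n + 1) + η) |A|` elements of `A` are
in some `m` cosets of `G`. Here `m, n ≥ 1` and `η > 0` are arbitrary; `M = lcm (1, …, n) ^ ⌈40 / η²⌉`
(`mul n η`).

1. Let `(f i)` be any family, finite or infinite, of Freiman homomorphisms of `A` into abelian groups,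
   each of which has on `A` some `m` values which are taken on at least `(m / (n + 1) + η) |A|` elements
   of `A`. Then there is `A' ⊆ A` with `|A'| ≥ |A| / K ^ c`, `c = 4 * 10 ^ 10 η ^ (-4) log (2 m)`, on which
   all the functions `M f i` are constant, and which has no popular subgroups, except the trivial
   ones: `mul n' η • (a - b) ∈ G` for all `a, b ∈ A'` and all `n'`, `G` with `Popular m n' η A' G`.
   So all the homomorphisms on the group generated by `A' - A'` are spread: if the image does not have
   a finite exponent, then any `m` values together are taken on at most `η |A'|` elements of `A'`, and if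
   its exponent is a multiple of the prime `p`, then on fewer than `(m / p + η) |A'|` elements.
   The exceptions in the hypothesis may be different for different `i`: the sets where `f i` takes
   its popular values may have an empty intersection, and each of them may be small.
2. Q1 follows, in every abelian group, from its special case of the sets `A` which have no popular
   subgroups except the trivial ones. (`Concl` is the conclusion of Q1.)
3. Let `F` be any set of popular subgroups for `A` and `N` the intersection of all of them. Then Q1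
   for `A` follows from Q1 for the finite subsets of `N`, with a constant which depends only on the
   constant there and on `m, n, η`.
4. If `q N = 0`, then `A` is covered by `(2 K) ^ (3 * 10 ^ 10 η ^ (-4) (n + ⌊log₂ q⌋ + 1))` cosets of a
   finite subgroup of order at most `|A|`, although `Γ` is arbitrary.
5. In 4 the exponent has to grow linearly with `n` (for `m = ⌊n / 2⌋`, `η` fixed): there are a cyclic
   group, subgroups of index at most `m` whose intersection is trivial, and a set `A` with
   `|A + A| ≤ 2 |A|` which is not covered by fewer than `2 ^ (m / 2) / √(m + 1) - 1` cosets of a subgroup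
   of order at most `|A|`.
6. In 1 the exponent has to grow with `log m`: `A = {0, …, m - 1} ^ k`, `K = 2 ^ k` needs
   `m ^ k = K ^ (log₂ m)` cosets of `{x : M x ∈ N}`, whatever the multiplier `M` is.
7. In 1 one cannot take `η = 0`: if `n + 1 = p` is prime, then in `A = Γ = 𝔽_p ^ k`, `K = 1`, any `m` cosets
   of any hyperplane have `(m / (n + 1)) |A|` elements of `A`, and `Γ` is not covered by fewer than
   `p ^ k` cosets of `{x : M x ∈ N}`, if `p` does not divide `M`.

For `m = n = 1`, where `M = 1`, the threshold is `1 / 2 + η`; the starting result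
`IntersectionsOfSubgroups` has the case of subgroups `G` with the threshold `1 - 10 ^ (-4)`. Its proof
uses that almost constant coordinates of a sum `x + y` do not interact. This fails here: the values
of a coordinate can be uniform on a finite subgroup, on a part of `A`.

Proof. (i) Every `G` is enlarged to `G'`, with `M G' ⊆ G`, so that the coordinate in `Γ / G'` does not
lose a proportion of its entropy modulo any nontrivial subgroup of order at most `n`; the entropy
is truncated suitably (`pot`, `exists_max`). (ii) The coordinates of `x + y` (`x, y` independent and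
uniform on `A`) are exposed one by one (`step`, `multi'`). If for a new coordinate the entropy of the sum is
hardly larger than the mean of the entropies, given the previous coordinates, then the
conditional laws are close to uniform laws on cosets of one and the same finite subgroup
(`struct`, a quantitative stability theorem), of order at most `n` on the popular part,
which by (i) is trivial, so that almost all conditional laws are almost constant. If it is much
larger, then one uses that a part `η` of the conditional laws have at most `m` popular values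
(`large`). (iii) Hence the entropy of the vector of all coordinates is at most
`2 * 10 ^ 10 η ^ (-4) log (2 m) log K`. (iv) `A'` comes from the pair of subsets `B, A'` of `A` which minimises
`h (B + A') - (1 / 2 + l) (log |B| + log |A'|)`, where `h` is the entropy of the sum of independent
elements, starting from a pair of fibres of the coordinates in (iii) (`robust_from`). (v) For 3, the
conclusion of Q1 passes to subgroups (`concl_hered`) and to extensions by groups of bounded
exponent (starting library `R424.EX`, helper424); for 4, the starting theorem on bounded torsion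
(`TH404.Tor`, helper404) is applied to the largest fibre of `A` over the cosets of
`{x : M x ∈ N}`, whose doubling is at most `K ^ 3`.
-/

set_option autoImplicit false

namespace Pool.Agent.Results.MP_dd2a7c_co.PopularSubgroups

open Finset
open scoped Pointwise
open Pool.Agent.R92.Star Pool.Agent.R849.IS Pool.Agent.Run7.h127 Pool.Agent.Run7.h127.PS

universe u

/-- `G` is popular for `A`: at least `(m / (n + 1) + η) |A|` elements of `A` are in some `m` cosets of
`G` -/
def Popular {Γ : Type u} [AddCommGroup Γ] (m n : ℕ) (η : ℝ) (A : Finset Γ) (G : AddSubgroup Γ) :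
    Prop :=
  ∃ B : Finset Γ, B.card ≤ m ∧
    ((m : ℝ) / (n + 1) + η) * A.card ≤ {a | a ∈ A ∧ ∃ b ∈ B, a - b ∈ G}.ncard

/-- the multiplier `lcm (1, …, n) ^ ⌈40 / η²⌉` -/
noncomputable def mul (n : ℕ) (η : ℝ) : ℕ := Nat.lcmUpto n ^ ⌈40 / η ^ 2⌉₊

theorem result :
    (∀ (Γ : Type u) [AddCommGroup Γ] [DecidableEq Γ] (K η : ℝ) (m n : ℕ) (A : Finset Γ),
      A.Nonempty → ((A + A).card : ℝ) ≤ K * A.card → 1 ≤ m → 0 < η →
      ∀ (ι : Type u) (V : ι → Type u) [∀ i, AddCommGroup (V i)] (f : ∀ i, Γ → V i),
      (∀ i, ∀ a ∈ A, ∀ b ∈ A, ∀ c ∈ A, ∀ d ∈ A, a + b = c + d → f i a + f i b = f i c + f i d) →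
      (∀ i, ∃ B : Finset (V i), B.card ≤ m ∧
        ((m : ℝ) / (n + 1) + η) * A.card ≤ {a | a ∈ A ∧ f i a ∈ B}.ncard) →
      ∃ A' ⊆ A, A'.Nonempty ∧
        (A.card : ℝ) ≤ K ^ (4 * 10 ^ 10 / η ^ 4 * Real.log (2 * m)) * A'.card ∧
        (∀ i, ∀ a ∈ A', ∀ b ∈ A', mul n η • f i a = mul n η • f i b) ∧
        ∀ (n' : ℕ) (G : AddSubgroup Γ), Popular m n' η A' G →
          ∀ a ∈ A', ∀ b ∈ A', mul n' η • (a - b) ∈ G) ∧
    (∀ (C η : ℝ) (m : ℕ), 1 ≤ m → 0 < η → ∃ C' : ℝ, ∀ (Γ : Type u) [AddCommGroup Γ]
      [DecidableEq Γ],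
      (∀ (K : ℝ) (A : Finset Γ), A.Nonempty → ((A + A).card : ℝ) ≤ K * A.card →
        (∀ (n : ℕ) (G : AddSubgroup Γ), Popular m n η A G →
          ∀ a ∈ A, ∀ b ∈ A, mul n η • (a - b) ∈ G) → Concl C K A) →
      ∀ (K : ℝ) (A : Finset Γ), A.Nonempty → ((A + A).card : ℝ) ≤ K * A.card → Concl C' K A) ∧
    (∀ (C η : ℝ) (m n : ℕ), 1 ≤ m → 0 < η → ∃ C' : ℝ, ∀ (Γ : Type u) [AddCommGroup Γ]
      [DecidableEq Γ] (F : Set (AddSubgroup Γ)) [DecidableEq (sInf F : AddSubgroup Γ)],
      (∀ (K : ℝ) (S : Finset (sInf F : AddSubgroup Γ)), S.Nonempty →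
        ((S + S).card : ℝ) ≤ K * S.card → Concl C K S) →
      ∀ (K : ℝ) (A : Finset Γ), A.Nonempty → ((A + A).card : ℝ) ≤ K * A.card →
      (∀ G ∈ F, Popular m n η A G) → Concl C' K A) ∧
    (∀ (Γ : Type u) [AddCommGroup Γ] [DecidableEq Γ] (F : Set (AddSubgroup Γ)) (η : ℝ)
      (m n q : ℕ), 1 ≤ m → m ≤ n → 0 < η → η ≤ 1 → 0 < q → (∀ x ∈ sInf F, q • x = 0) →
      ∀ (K : ℝ) (A : Finset Γ), A.Nonempty → ((A + A).card : ℝ) ≤ K * A.card →
      (∀ G ∈ F, Popular m n η A G) →
      ∃ (H : AddSubgroup Γ) (T : Finset Γ), Finite H ∧ Nat.card H ≤ A.card ∧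
        (T.card : ℝ) ≤ (2 * K) ^ (3 * 10 ^ 10 / η ^ 4 * (n + Nat.log 2 q + 1)) ∧
        ∀ a ∈ A, ∃ t ∈ T, a - t ∈ H) ∧
    (∀ m : ℕ, ∃ (P : ℕ) (F : Set (AddSubgroup (ZMod P))) (A : Finset (ZMod P)), A.Nonempty ∧
      (A + A).card ≤ 2 * A.card ∧ sInf F = ⊥ ∧ (∀ G ∈ F, G.index ≠ 0 ∧ G.index ≤ m) ∧
      ∀ (H : AddSubgroup (ZMod P)) (T : Finset (ZMod P)), Nat.card H ≤ A.card →
        (∀ a ∈ A, ∃ t ∈ T, a - t ∈ H) → 2 ^ m ≤ (m + 1) * (T.card + 1) ^ 2) ∧
    (∀ m k : ℕ, ∃ (F : Set (AddSubgroup (Fin k → ℤ))) (A : Finset (Fin k → ℤ)),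
      (A + A).card ≤ 2 ^ k * A.card ∧ A.card = m ^ k ∧
      (∀ G ∈ F, ∃ B : Finset (Fin k → ℤ), B.card ≤ m ∧ ∀ a ∈ A, ∃ b ∈ B, a - b ∈ G) ∧
      ∀ (M : ℕ) (T : Finset (Fin k → ℤ)), 0 < M →
        (∀ a ∈ A, ∃ t ∈ T, M • (a - t) ∈ sInf F) → m ^ k ≤ T.card) ∧
    (∀ p k M : ℕ, p.Prime → ¬ p ∣ M →
      ∃ F : Set (AddSubgroup (Fin k → ZMod p)), (∀ G ∈ F, G.index = p) ∧
        ∀ T : Finset (Fin k → ZMod p), (∀ a, ∃ t ∈ T, M • (a - t) ∈ sInf F) → p ^ k ≤ T.card) := by
  classical
  refine ⟨?_, ?_, ?_, ?_, FV.sharp, FV.sharp_log, fun p k M hp hM => sharp_prime p k M hp hM⟩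
  · intro Γ _ _ K η m n A hA hK hm hη ι V _ f hf hF
    exact main' hA hK hm hη f hf hF
  · intro C η m hm hη
    exact concl_robust C m hm η hη
  · intro C η m n hm hη
    exact concl_inter C m n hm η hη
  · intro Γ _ _ F η m n q hm hmn hη hη1 hq hN K A hA hK hF
    exact bounded hA hK hm hη hη1 hmn F hF hq hN

end Pool.Agent.Results.MP_dd2a7c_co.PopularSubgroups
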