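import Pool.Agent.Run7.h127.SP.Univ
import Pool.Agent.Run7.h127.SD.Gen

/-!
# Freiman–Ruzsa with the sharp dimension and polynomially many translates, arbitrary abelian groups

A finite set `A` of doubling `K` in an abelian group is covered by polynomially many translates of a
centred convex coset progression of dimension at most `(1 + ε) log₂ K + ε` and volume at most
`exp (O_{ε,η} (log (2 K) ^ (1 + η))) |A|`; moreover the parts of `A` in these translates can be
chosen so that all Freiman homomorphisms of `A` into torsion-free groups map them to sets of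
dimension at most `(1 + ε) log₂ K + ε`. The constant `1` in front of `log₂ K` is best possible.
-/

set_option autoImplicit false
open scoped Pointwise

namespace Pool.Agent.Results.MP_dd2a7c_co.SharpDimension

universe u w

/-- The dimension of a subset of an abelian group: the rank of the subgroup generated by the
differences of its elements. -/
noncomputable def dim {W : Type w} [AddCommGroup W] (S : Set W) : ℕ :=
  Module.finrank ℤ (Submodule.span ℤ (S - S))

/-- (i) Freiman-Ruzsa theorem with the sharp dimension and polynomially many translates in every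
abelian group, with control of all Freiman homomorphisms; (ii) optimality of the dimension. -/
theorem result :
    (∀ (Γ : Type u) [AddCommGroup Γ] [DecidableEq Γ] (A : Finset Γ), A.Nonempty →
      ∀ K : ℝ, ((A + A).card : ℝ) ≤ K * A.card → ∀ ε : ℝ, 0 < ε → ε ≤ 1 → ∀ η : ℝ, 0 < η → η ≤ 1 →
      ∃ (d : ℕ) (B : Set (Fin d → ℝ)) (ψ : (Fin d → ℤ) →+ Γ) (H : AddSubgroup Γ) (F : Finset Γ)
        (P : Γ → Finset Γ),
        (d : ℝ) ≤ (1 + ε) * Real.logb 2 K + ε ∧
        Convex ℝ B ∧ IsCompact B ∧ (interior B).Nonempty ∧ (∀ x ∈ B, -x ∈ B) ∧ Finite H ∧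
        (({c : Fin d → ℤ | (fun i => (c i : ℝ)) ∈ B}.ncard * Nat.card H : ℕ) : ℝ) ≤
          Real.exp (3 * 10 ^ 11 / (η ^ 3 * ε) * Real.log (2 * K) ^ (1 + η)) * A.card ∧
        F ⊆ A ∧ (F.card : ℝ) ≤ (2 * K) ^ (10 ^ 21 / (η ^ 2 * ε ^ 4)) ∧
        (∀ a ∈ A, ∃ f ∈ F, a ∈ P f) ∧
        ∀ f ∈ F, P f ⊆ A ∧
          (∀ a ∈ P f, ∃ c : Fin d → ℤ, (fun i => (c i : ℝ)) ∈ B ∧ ∃ h ∈ H, a = f + ψ c + h) ∧
          ∀ (W : Type w) [AddCommGroup W] [IsAddTorsionFree W] (g : Γ → W),
            IsAddFreimanHom 2 (A : Set Γ) Set.univ g → dim (g '' (P f : Set Γ)) ≤ d) ∧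
    (∀ (d : ℕ) (C : ℝ), ∃ A : Finset (Fin d → ℤ), A.Nonempty ∧
      ((A + A).card : ℝ) ≤ 2 ^ d * A.card ∧
      ∀ A' : Finset (Fin d → ℤ), A' ⊆ A → (A.card : ℝ) ≤ ((2 : ℝ) ^ d) ^ C * A'.card →
        d ≤ dim (A' : Set (Fin d → ℤ))) := by
  refine ⟨?_, ?_⟩
  · intro Γ _ _ A hA K hK ε hε hε1 η hη hη1
    obtain ⟨d, N, ψ, H, F, P, hN, hH, hdim, hsize, hFA, hF, hcov, hP⟩ :=
      Pool.Agent.Run7.h127.SP.poly_univ.{u, w} hA hK hε hε1 hη hη1
    have hB := H112.symmBody_ball N hN one_pos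
    refine ⟨d, {x | N x ≤ 1}, ψ, H, F, P, ?_, hB.1, hB.2.1, hB.2.2.1, hB.2.2.2, hH, hsize, hFA, hF,
      hcov, ?_⟩
    · have hlog : 0 < Real.log 2 := Real.log_pos (by norm_num)
      rw [Real.logb, ← mul_div_assoc, div_add' _ _ _ hlog.ne', le_div_iff₀ hlog]
      exact hdim
    · intro f hf
      obtain ⟨h1, h2, h3⟩ := hP f hf
      exact ⟨h1, fun a ha => h2 a ha, fun W _ _ g hg => h3 W g hg⟩
  · intro d C
    obtain ⟨A, h1, h2, h3⟩ := Pool.Agent.Run7.h127.SD.sharp 1 d C
    have e1 : (A.image fun a => 1 • a) = A := by simp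
    rw [e1] at h2
    have e2 : ((1 : ℕ) + 1 : ℝ) = 2 := by norm_num
    rw [e2] at h2 h3
    exact ⟨A, h1, h2, h3⟩

end Pool.Agent.Results.MP_dd2a7c_co.SharpDimension
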