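import Pool.Agent.Run7.h127.SP.Floor
import Pool.Agent.Run7.h127.SN.Sharp

/-!
# Freiman–Ruzsa with the sharp rank, proper coset progressions and almost polynomial bounds

A finite set `A` of doubling `K` in an abelian group is covered by
`(2 K) ^ O_ε((1 + log (1 + log (2 K))) ^ 2)` translates of a PROPER coset progression of rank at most
`max 1 ((1 + ε) log₂ K + ε)` and size at most `|A|`, and by
`exp (O(log (2 K) ^ 5 (1 + log (1 + log (2 K))) ^ 2 / δ ^ 4))` translates of one of rank at most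
`max 1 ⌊log₂ K + δ⌋`. The rank is best possible.

The symmetric coset progression `{∑ c i • v i + h : |c i| ≤ L i, h ∈ H}` is `ψ(ℤ ^ d ∩ B) + H` for
the box `B = ∏ [-L i, L i]`: a centred convex coset progression of dimension `d` and volume
`∏ (2 L i + 1) |H|`.
-/

set_option autoImplicit false
open scoped Pointwise

namespace Pool.Agent.Results.MP_dd2a7c_co.SharpNearPFR

universe u

/-- Freiman-Ruzsa theorem with the sharp rank, proper coset progressions and almost polynomially many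
translates in every abelian group (i), the rank `⌊log₂ K + δ⌋` (ii), optimality of the rank (iii). -/
theorem result :
    (∀ (Γ : Type u) [AddCommGroup Γ] [DecidableEq Γ] (A : Finset Γ), A.Nonempty →
      ∀ K : ℝ, ((A + A).card : ℝ) ≤ K * A.card →
      (∀ ε : ℝ, 0 < ε → ε ≤ 1 →
        ∃ (d : ℕ) (v : Fin d → Γ) (L : Fin d → ℕ) (H : AddSubgroup Γ) (T : Finset Γ),
          (d : ℝ) ≤ max 1 ((1 + ε) * Real.logb 2 K + ε) ∧ Finite H ∧
          (∀ c c' : Fin d → ℤ, (∀ i, |c i| ≤ L i) → (∀ i, |c' i| ≤ L i) →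
            ∑ i, c i • v i - ∑ i, c' i • v i ∈ H → c = c') ∧
          (∏ i, (2 * L i + 1)) * Nat.card H ≤ A.card ∧
          (T.card : ℝ) ≤ (2 * K) ^ (10 ^ 21 * (1 + Real.log (1 + Real.log (2 * K))) ^ 2 / ε ^ 4) ∧
          ∀ a ∈ A, ∃ t ∈ T, ∃ c : Fin d → ℤ, (∀ i, |c i| ≤ L i) ∧
            ∃ h ∈ H, a = t + ∑ i, c i • v i + h) ∧
      (∀ δ : ℝ, 0 < δ → δ ≤ 1 →
        ∃ (d : ℕ) (v : Fin d → Γ) (L : Fin d → ℕ) (H : AddSubgroup Γ) (T : Finset Γ),
          d ≤ max 1 ⌊Real.logb 2 K + δ⌋₊ ∧ Finite H ∧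
          (∀ c c' : Fin d → ℤ, (∀ i, |c i| ≤ L i) → (∀ i, |c' i| ≤ L i) →
            ∑ i, c i • v i - ∑ i, c' i • v i ∈ H → c = c') ∧
          (∏ i, (2 * L i + 1)) * Nat.card H ≤ A.card ∧
          (T.card : ℝ) ≤ Real.exp (10 ^ 22 * Real.log (2 * K) ^ 5 *
            (1 + Real.log (1 + Real.log (2 * K))) ^ 2 / δ ^ 4) ∧
          ∀ a ∈ A, ∃ t ∈ T, ∃ c : Fin d → ℤ, (∀ i, |c i| ≤ L i) ∧
            ∃ h ∈ H, a = t + ∑ i, c i • v i + h)) ∧
    (∀ (d : ℕ) (C : ℝ), ∃ A : Finset (Fin d → ℤ), A.Nonempty ∧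
      ((A + A).card : ℝ) ≤ 2 ^ d * A.card ∧
      ∀ (d' : ℕ) (ψ : (Fin d' → ℤ) →+ (Fin d → ℤ)) (T : Finset (Fin d → ℤ)), (T.card : ℝ) ≤ C →
        (∀ a ∈ A, ∃ t ∈ T, ∃ c : Fin d' → ℤ, a = t + ψ c) → d ≤ d') := by
  refine ⟨?_, fun d C => Pool.Agent.Run7.h127.SN.optimal d C⟩
  intro Γ _ _ A hA K hK
  refine ⟨fun ε hε hε1 => ?_, fun δ hδ hδ1 => Pool.Agent.Run7.h127.SP.floor_gen hA hK hδ hδ1⟩
  obtain ⟨d, v, L, H, T, h1, h2, h3, h4, h5, h6⟩ := Pool.Agent.Run7.h127.SP.gap_gen hA hK hε hε1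
  refine ⟨d, v, L, H, T, ?_, h2, h3, h4, h5, h6⟩
  have hlog : 0 < Real.log 2 := Real.log_pos (by norm_num)
  rcases h1 with h1 | h1
  · exact h1.trans (le_max_left _ _)
  · refine le_trans ?_ (le_max_right _ _)
    rw [Real.logb, ← mul_div_assoc, div_add' _ _ _ hlog.ne', le_div_iff₀ hlog]
    exact h1

end Pool.Agent.Results.MP_dd2a7c_co.SharpNearPFR
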