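import Pool.Agent.Run7.h127.SP.TradeMain
import Pool.Agent.Run7.h127.SP.LowGen
import Pool.Agent.Run7.h127.SP.Zero

/-!
# Groups of exponent `m`: the exact tradeoff between dimension and number of translates

Groups `Γ` with `m Γ = 0`, sets `A` with `|A + A| ≤ K |A|`, coverings of `A` by translates of a coset
progression of dimension at most `r` and size at most `|A|` (`r = 0`: cosets of a subgroup, Marton's
conjecture). Let `d = max 1 ⌊log₂ K⌋`. Up to factors depending on `K` only, the number of translates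
needed is `m ^ e₁ (d - r)` for every `r ≥ 1` and every `m`; for `r = 0` it is `p ^ e₀ d` for primes
`m = p` and, up to factors depending on `K` and `q`, `m ^ e₁ d` for powers `m` of `q`.
-/

set_option autoImplicit false
open scoped Pointwise

namespace Pool.Agent.Results.MP_dd2a7c_co.SharpTorsionTradeoff

universe u

/-- `⌊(d + 1)² / 4⌋ / d` -/
noncomputable def e₀ (d : ℕ) : ℝ := (((d + 1) ^ 2 / 4 : ℕ) : ℝ) / (d : ℝ)

/-- `⌊(n + 1)² / 4⌋ / (n + 1)` -/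
noncomputable def e₁ (n : ℕ) : ℝ := (((n + 1) ^ 2 / 4 : ℕ) : ℝ) / ((n + 1 : ℕ) : ℝ)

/-- `V` is one of the two bounds for the number of translates of a coset progression of rank at most
`d`, uniform in the group: `d = max 1 ⌊(1 + ε) log₂ K + ε⌋` and `V` almost polynomial in `K`, or
`d = max 1 ⌊log₂ K + δ⌋` and `V` quasi-polynomial in `K`. -/
def Adm (K : ℝ) (d : ℕ) (V : ℝ) : Prop :=
  (∃ ε : ℝ, 0 < ε ∧ ε ≤ 1 ∧ d = max 1 ⌊(1 + ε) * Real.logb 2 K + ε⌋₊ ∧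
    V = (2 * K) ^ (10 ^ 21 * (1 + Real.log (1 + Real.log (2 * K))) ^ 2 / ε ^ 4)) ∨
  (∃ δ : ℝ, 0 < δ ∧ δ ≤ 1 ∧ d = max 1 ⌊Real.logb 2 K + δ⌋₊ ∧
    V = Real.exp (10 ^ 22 * Real.log (2 * K) ^ 5 * (1 + Real.log (1 + Real.log (2 * K))) ^ 2 / δ ^ 4))

theorem adm_gap {Γ : Type u} [AddCommGroup Γ] [DecidableEq Γ] {A : Finset Γ} (hA : A.Nonempty)
    {K : ℝ} (hK : ((A + A).card : ℝ) ≤ K * A.card) {D : ℕ} {V : ℝ} (h : Adm K D V) :
    1 ≤ D ∧ ∃ (d : ℕ) (v : Fin d → Γ) (L : Fin d → ℕ) (H : AddSubgroup Γ) (T : Finset Γ),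
      d ≤ D ∧ Finite H ∧
      (∀ c c' : Fin d → ℤ, (∀ i, |c i| ≤ L i) → (∀ i, |c' i| ≤ L i) →
        ∑ i, c i • v i - ∑ i, c' i • v i ∈ H → c = c') ∧
      (∏ i, (2 * L i + 1)) * Nat.card H ≤ A.card ∧ (T.card : ℝ) ≤ V ∧
      ∀ a ∈ A, ∃ t ∈ T, ∃ c : Fin d → ℤ, (∀ i, |c i| ≤ L i) ∧
        ∃ h ∈ H, a = t + ∑ i, c i • v i + h := by
  rcases h with ⟨ε, hε, hε1, hD, hV⟩ | ⟨δ, hδ, hδ1, hD, hV⟩
  · refine ⟨by rw [hD]; exact le_max_left _ _, ?_⟩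
    obtain ⟨d, v, L, H, T, h1, h2, h3, h4, h5, h6⟩ := Pool.Agent.Run7.h127.SP.gap_gen hA hK hε hε1
    have hlog : 0 < Real.log 2 := Real.log_pos (by norm_num)
    refine ⟨d, v, L, H, T, ?_, h2, h3, h4, by rw [hV]; exact h5, h6⟩
    rw [hD]
    rcases h1 with h1 | h1
    · exact (show d ≤ 1 by exact_mod_cast h1).trans (le_max_left _ _)
    · refine le_trans (Nat.le_floor ?_) (le_max_right _ _)
      rw [Real.logb, ← mul_div_assoc, div_add' _ _ _ hlog.ne', le_div_iff₀ hlog]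
      exact h1
  · refine ⟨by rw [hD]; exact le_max_left _ _, ?_⟩
    obtain ⟨d, v, L, H, T, h1, h2, h3, h4, h5, h6⟩ :=
      Pool.Agent.Run7.h127.SP.floor_gen hA hK hδ hδ1
    exact ⟨d, v, L, H, T, hD ▸ h1, h2, h3, h4, by rw [hV]; exact h5, h6⟩

/-- The tradeoff between the dimension `r` and the number of translates in groups of exponent `m`:
upper bounds (subgroups, every `m`; subgroups, `m` a power of `q`; dimension `r ≥ 1`, every `m`), the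
lower bound for every `m` and `r`, and the lower bound for primes and `r = 0`. -/
theorem result :
    (∀ m : ℕ, 2 ≤ m → ∀ (Γ : Type u) [AddCommGroup Γ] [DecidableEq Γ], (∀ x : Γ, m • x = 0) →
      ∀ A : Finset Γ, A.Nonempty → ∀ K : ℝ, ((A + A).card : ℝ) ≤ K * A.card →
      ∀ (d : ℕ) (V : ℝ), Adm K d V →
      (∃ (H : AddSubgroup Γ) (T : Finset Γ), Finite H ∧ Nat.card H ≤ A.card ∧
        (T.card : ℝ) ≤ (m : ℝ) ^ e₀ d * V ∧ ∀ a ∈ A, ∃ t ∈ T, a - t ∈ H) ∧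
      (∀ q k : ℕ, 2 ≤ q → m = q ^ k →
        ∃ (H : AddSubgroup Γ) (T : Finset Γ), Finite H ∧ Nat.card H ≤ A.card ∧
          (T.card : ℝ) ≤ 2 * q * (m : ℝ) ^ e₁ d * V ∧ ∀ a ∈ A, ∃ t ∈ T, a - t ∈ H) ∧
      (∀ r : ℕ, 1 ≤ r →
        ∃ (k : ℕ) (v : Fin k → Γ) (L : Fin k → ℕ) (H : AddSubgroup Γ) (T : Finset Γ), k ≤ r ∧
          Finite H ∧ (∏ i, (2 * L i + 1)) * Nat.card H ≤ A.card ∧
          (T.card : ℝ) ≤ 6 * (m : ℝ) ^ e₁ (d - r) * V ∧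
          ∀ a ∈ A, ∃ t ∈ T, ∃ c : Fin k → ℤ, (∀ i, |c i| ≤ L i) ∧
            ∃ h ∈ H, a = t + ∑ i, c i • v i + h)) ∧
    (∀ (m : ℕ) (K : ℝ), 2 ≤ m → 2 ≤ K → ∀ d : ℕ, d = ⌊Real.logb 2 K⌋₊ → ∀ r : ℕ,
      ∃ A : Finset (Fin d → ZMod m), A.Nonempty ∧ ((A + A).card : ℝ) ≤ K * A.card ∧
        ∀ (H : AddSubgroup (Fin d → ZMod m)) (ψ : (Fin r → ℤ) →+ (Fin d → ZMod m))
          (B : Finset (Fin r → ℤ)) (T : Finset (Fin d → ZMod m)),
          B.card * Nat.card H ≤ A.card → (∀ a ∈ A, ∃ t ∈ T, ∃ b ∈ B, a - (t + ψ b) ∈ H) →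
            1 / (2 * K ^ 2) * (m : ℝ) ^ e₁ (d - r) ≤ T.card) ∧
    (∀ (p : ℕ) (K : ℝ), p.Prime → 1 < K → ∀ d : ℕ, d = max 1 ⌊Real.logb 2 K⌋₊ →
      ∃ A : Finset (Fin d → ZMod p), A.Nonempty ∧ ((A + A).card : ℝ) ≤ K * A.card ∧
        ∀ (H : AddSubgroup (Fin d → ZMod p)) (T : Finset (Fin d → ZMod p)),
          Nat.card H ≤ A.card → (∀ a ∈ A, ∃ t ∈ T, a - t ∈ H) →
            (K - 1) / (2 * K ^ 2) * (p : ℝ) ^ e₀ d ≤ T.card) := by
  refine ⟨?_, fun m K hm hK d hd r => Pool.Agent.Run7.h127.SP.low_K_gen hm hK hd r,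
    fun p K hp hK d hd => Pool.Agent.Run7.h127.SP.low_K hp hK hd⟩
  intro m hm Γ _ _ htor A hA K hK D V hAdm
  obtain ⟨hD, d, v, L, H, T, h1, h2, h3, h4, h5, h6⟩ := adm_gap hA hK hAdm
  have hm0 : (0 : ℝ) ≤ (m : ℝ) := by positivity
  refine ⟨?_, ?_, ?_⟩
  · obtain ⟨H', T', g1, g2, g3, g4⟩ := Pool.Agent.Run7.h127.SP.to_subgroup hm htor hD h1 h2 h3 h4 h6
    exact ⟨H', T', g1, g2, g3.trans (mul_le_mul_of_nonneg_left h5 (Real.rpow_nonneg hm0 _)), g4⟩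
  · intro q k hq hmq
    obtain ⟨H', T', g1, g2, g3, g4⟩ := Pool.Agent.Run7.h127.SP.to_subgroup_div (ρ := q) hm htor
      (by omega) (by rw [hmq]; exact Pool.Agent.Run7.h127.SP.pow_divisors hq) h1 h2 h3 h4 h6
    refine ⟨H', T', g1, g2, g3.trans (mul_le_mul_of_nonneg_left h5 ?_), g4⟩
    exact mul_nonneg (by positivity) (Real.rpow_nonneg hm0 _)
  · intro r hr
    obtain ⟨k, w, M, H', T', g1, g2, g3, g4, g5⟩ :=
      Pool.Agent.Run7.h127.SP.to_trade hm htor hr h1 h2 h4 h6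
    refine ⟨k, w, M, H', T', g1, g2, g3, g4.trans (mul_le_mul_of_nonneg_left h5 ?_), g5⟩
    exact mul_nonneg (by norm_num) (Real.rpow_nonneg hm0 _)

end Pool.Agent.Results.MP_dd2a7c_co.SharpTorsionTradeoff
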